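import Mathlib

namespace Pool.Agent.X170.Quat

open PowerSeries

/-- the coefficient function of the power series obtained by substituting the `m`-th power of the variable -/
def spread (m : ℕ) (f : ℕ → ℤ) (i : ℕ) : ℤ := if m ∣ i then f (i / m) else 0

theorem coeff_spread_mul (m : ℕ) (hm : 0 < m) (f g : ℕ → ℤ) (N : ℕ) :
    coeff N (mk (spread m f) * mk g : PowerSeries ℤ)
      = ∑ j ∈ Finset.range (N / m + 1), f j * g (N - j * m) := by
  rw [PowerSeries.coeff_mul, Finset.Nat.sum_antidiagonal_eq_sum_range_succ_mk]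
  simp only [PowerSeries.coeff_mk]
  symm
  apply Finset.sum_of_injOn (fun j => j * m)
  · intro a _ b _ h
    exact Nat.eq_of_mul_eq_mul_right hm h
  · intro j hj
    simp only [Finset.coe_range, Set.mem_Iio] at hj ⊢
    have h1 : j ≤ N / m := by omega
    have h2 : j * m ≤ N := (Nat.le_div_iff_mul_le hm).1 h1
    omega
  · intro i hi hni
    simp only [Finset.mem_range] at hi
    unfold spread
    rw [if_neg, zero_mul]
    rintro ⟨t, rfl⟩
    apply hni
    refine ⟨t, ?_, by simp [mul_comm]⟩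
    simp only [Finset.coe_range, Set.mem_Iio]
    have : t ≤ N / m := (Nat.le_div_iff_mul_le hm).2 (by rw [mul_comm]; omega)
    omega
  · intro j _
    unfold spread
    rw [if_pos (Dvd.intro_left j rfl), Nat.mul_div_cancel _ hm]

theorem spread_inv (m : ℕ) (hm : 0 < m) (f g : ℕ → ℤ)
    (h : (mk f * mk g : PowerSeries ℤ) = 1) :
    (mk (spread m f) * mk (spread m g) : PowerSeries ℤ) = 1 := by
  ext N
  rw [coeff_spread_mul m hm]
  by_cases hN : m ∣ N
  · obtain ⟨t, rfl⟩ := hN
    rw [Nat.mul_div_cancel_left _ hm]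
    have h1 : ∑ j ∈ Finset.range (t + 1), f j * spread m g (m * t - j * m)
        = coeff t (mk f * mk g : PowerSeries ℤ) := by
      rw [PowerSeries.coeff_mul, Finset.Nat.sum_antidiagonal_eq_sum_range_succ_mk]
      apply Finset.sum_congr rfl
      intro j hj
      simp only [PowerSeries.coeff_mk]
      have e1 : m * t - j * m = m * (t - j) := by
        rw [Nat.mul_sub, mul_comm j m]
      rw [e1]
      unfold spread
      rw [if_pos (Dvd.intro _ rfl), Nat.mul_div_cancel_left _ hm]
    rw [h1, h, PowerSeries.coeff_one, PowerSeries.coeff_one]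
    by_cases ht : t = 0
    · simp [ht]
    · rw [if_neg ht, if_neg]
      intro hc
      rcases Nat.mul_eq_zero.1 hc with h2 | h2
      · omega
      · exact ht h2
  · rw [PowerSeries.coeff_one, if_neg (by rintro rfl; exact hN (dvd_zero m))]
    apply Finset.sum_eq_zero
    intro j hj
    simp only [Finset.mem_range] at hj
    have h1 : j * m ≤ N := (Nat.le_div_iff_mul_le hm).1 (by omega)
    unfold spread
    rw [if_neg, mul_zero]
    intro hc
    apply hN
    have h2 : m ∣ (N - j * m) + j * m := Dvd.dvd.add hc (Dvd.intro_left j rfl)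
    rwa [Nat.sub_add_cancel h1] at h2

/-- multiplication by `1 - X ^ d` on coefficient functions -/
def del (d : ℕ) (f : ℕ → ℤ) (N : ℕ) : ℤ := f N - if d ≤ N then f (N - d) else 0

theorem mk_mul_one_sub (d : ℕ) (f : ℕ → ℤ) :
    (mk f * (1 - X ^ d) : PowerSeries ℤ) = mk (del d f) := by
  ext N
  rw [mul_sub, mul_one, map_sub, PowerSeries.coeff_mul_X_pow']
  simp only [PowerSeries.coeff_mk, del]

def d0 (n : ℕ) : ℤ := if n = 0 then 1 else 0

theorem mk_d0 : (mk d0 : PowerSeries ℤ) = 1 := by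
  ext N
  rw [PowerSeries.coeff_mk, PowerSeries.coeff_one, d0]

/-- the coefficients of the 143rd cyclotomic polynomial -/
def ca (j : ℕ) : ℤ :=
  if j < 143 then
    (if (6 * j) % 13 ≤ 5 ∧ (6 * j) % 11 ≤ 5 then 1
      else if 6 ≤ (6 * j) % 13 ∧ 6 ≤ (6 * j) % 11 then -1 else 0)
  else 0

/-- the coefficients of the reciprocal of the 143rd cyclotomic polynomial -/
def cc (i : ℕ) : ℤ :=
  if i % 143 < 11 then 1 else if 13 ≤ i % 143 ∧ i % 143 < 24 then -1 else 0

theorem ca_big (j : ℕ) (h : 143 ≤ j) : ca j = 0 := by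
  unfold ca; rw [if_neg (by omega)]

theorem ca_small : ∀ N < 200, del 13 (del 11 ca) N = del 143 (del 1 d0) N := by
  decide +kernel

theorem ca_all (N : ℕ) : del 13 (del 11 ca) N = del 143 (del 1 d0) N := by
  by_cases h : N < 200
  · exact ca_small N h
  · unfold del
    rw [ca_big N (by omega), ca_big (N - 11) (by omega), ca_big (N - 13) (by omega),
      ca_big (N - 13 - 11) (by omega)]
    unfold d0
    rw [if_neg (show ¬ N = 0 by omega), if_neg (show ¬ N - 1 = 0 by omega),
      if_neg (show ¬ N - 143 = 0 by omega), if_neg (show ¬ N - 143 - 1 = 0 by omega)]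
    simp

theorem cc_small : ∀ N < 200, del 143 (del 1 cc) N = del 13 (del 11 d0) N := by
  decide +kernel

theorem cc_per (N : ℕ) (h : 143 ≤ N) : cc (N - 143) = cc N := by
  unfold cc
  have : (N - 143) % 143 = N % 143 := by omega
  rw [this]

theorem cc_all (N : ℕ) : del 143 (del 1 cc) N = del 13 (del 11 d0) N := by
  by_cases h : N < 200
  · exact cc_small N h
  · unfold del
    have e : N - 143 - 1 = (N - 1) - 143 := by omega
    rw [e, cc_per N (by omega), cc_per (N - 1) (by omega)]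
    unfold d0
    rw [if_neg (show ¬ N = 0 by omega), if_neg (show ¬ N - 11 = 0 by omega),
      if_neg (show ¬ N - 13 = 0 by omega), if_neg (show ¬ N - 13 - 11 = 0 by omega)]
    simp
    split_ifs <;> omega

theorem ca_eq : (mk ca * (1 - X ^ 11) * (1 - X ^ 13) : PowerSeries ℤ)
    = (1 - X ^ 1) * (1 - X ^ 143) := by
  rw [mk_mul_one_sub, mk_mul_one_sub]
  have h : ((1 - X ^ 1) * (1 - X ^ 143) : PowerSeries ℤ) = mk (del 143 (del 1 d0)) := by
    rw [← mk_mul_one_sub, ← mk_mul_one_sub, mk_d0, one_mul]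
  rw [h]
  congr 1
  funext N
  exact ca_all N

theorem cc_eq : (mk cc * (1 - X ^ 1) * (1 - X ^ 143) : PowerSeries ℤ)
    = (1 - X ^ 11) * (1 - X ^ 13) := by
  rw [mk_mul_one_sub, mk_mul_one_sub]
  have h : ((1 - X ^ 11) * (1 - X ^ 13) : PowerSeries ℤ) = mk (del 13 (del 11 d0)) := by
    rw [← mk_mul_one_sub, ← mk_mul_one_sub, mk_d0, one_mul]
  rw [h]
  congr 1
  funext N
  exact cc_all N

theorem one_sub_ne (d : ℕ) (hd : 0 < d) : (1 - X ^ d : PowerSeries ℤ) ≠ 0 := by
  intro h
  have := congrArg (coeff 0) h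
  rw [map_sub, PowerSeries.coeff_one, PowerSeries.coeff_X_pow, if_pos rfl,
    if_neg (by omega)] at this
  simp at this

theorem ca_cc : (mk ca * mk cc : PowerSeries ℤ) = 1 := by
  have h1 := ca_eq
  have h2 := cc_eq
  have hne : ((1 - X ^ 11) * (1 - X ^ 13) * ((1 - X ^ 1) * (1 - X ^ 143)) : PowerSeries ℤ) ≠ 0 :=
    mul_ne_zero (mul_ne_zero (one_sub_ne _ (by norm_num)) (one_sub_ne _ (by norm_num)))
      (mul_ne_zero (one_sub_ne _ (by norm_num)) (one_sub_ne _ (by norm_num)))
  apply mul_right_cancel₀ hne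
  calc (mk ca * mk cc * ((1 - X ^ 11) * (1 - X ^ 13) * ((1 - X ^ 1) * (1 - X ^ 143))) : PowerSeries ℤ)
      = (mk ca * (1 - X ^ 11) * (1 - X ^ 13)) * (mk cc * (1 - X ^ 1) * (1 - X ^ 143)) := by ring
    _ = _ := by rw [h1, h2]; ring

theorem cyc143 : ((Polynomial.cyclotomic 143 ℤ : Polynomial ℤ) : PowerSeries ℤ) = mk ca := by
  have : Fact (Nat.Prime 11) := ⟨by norm_num⟩
  have : Fact (Nat.Prime 13) := ⟨by norm_num⟩
  have h1 := Polynomial.cyclotomic_prime_mul_X_sub_one ℤ 11
  have h2 := Polynomial.cyclotomic_expand_eq_cyclotomic_mul (p := 13) (n := 11) (by norm_num)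
    (by norm_num) ℤ
  have h3 : (Polynomial.expand ℤ 13) (Polynomial.cyclotomic 11 ℤ * (Polynomial.X - 1))
      = (Polynomial.expand ℤ 13) (Polynomial.X ^ 11 - 1) := by rw [h1]
  rw [map_mul, h2, map_sub, map_sub, map_pow, map_one, Polynomial.expand_X, ← pow_mul] at h3
  have h4 : Polynomial.cyclotomic 143 ℤ * (1 - Polynomial.X ^ 11) * (1 - Polynomial.X ^ 13)
      = (1 - Polynomial.X ^ 1) * (1 - Polynomial.X ^ 143) := by
    simp only [Nat.reduceMul] at h3
    have h1' : (Polynomial.X ^ 11 - 1 : Polynomial ℤ)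
      = Polynomial.cyclotomic 11 ℤ * (Polynomial.X - 1) := h1.symm
    rw [pow_one]
    generalize (Polynomial.X ^ 143 : Polynomial ℤ) = b at *
    generalize (Polynomial.X ^ 13 : Polynomial ℤ) = a at *
    generalize (Polynomial.X ^ 11 : Polynomial ℤ) = c at *
    linear_combination (Polynomial.X - 1) * h3 + Polynomial.cyclotomic 143 ℤ * (a - 1) * h1'
  have h7 := congrArg (fun P : Polynomial ℤ => (P : PowerSeries ℤ)) h4
  simp only [Polynomial.coe_mul, Polynomial.coe_sub, Polynomial.coe_one, Polynomial.coe_pow,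
    Polynomial.coe_X] at h7
  have hne : ((1 - X ^ 11) * (1 - X ^ 13) : PowerSeries ℤ) ≠ 0 :=
    mul_ne_zero (one_sub_ne _ (by norm_num)) (one_sub_ne _ (by norm_num))
  apply mul_right_cancel₀ hne
  rw [← mul_assoc, h7, ← mul_assoc, ca_eq]

theorem coe_expand (m : ℕ) (hm : 0 < m) (P : Polynomial ℤ) :
    ((Polynomial.expand ℤ m P : Polynomial ℤ) : PowerSeries ℤ)
      = mk (spread m (fun i => P.coeff i)) := by
  ext N
  rw [Polynomial.coeff_coe, PowerSeries.coeff_mk, Polynomial.coeff_expand hm]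
  rfl

end Pool.Agent.X170.Quat
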