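import Pool.Agent.X170.Quat.Base

namespace Pool.Agent.X170.Quat

open PowerSeries

theorem coeff143 (i : ℕ) : (Polynomial.cyclotomic 143 ℤ).coeff i = ca i := by
  have h := congrArg (coeff i) cyc143
  rwa [Polynomial.coeff_coe, PowerSeries.coeff_mk] at h

/-- the coefficients of the cyclotomic polynomial of index `11 * 13 * 571` -/
def dn (m : ℕ) : ℤ := ∑ u ∈ Finset.range (m / 571 + 1), ca u * cc (m - u * 571)

/-- the coefficients of its reciprocal power series -/
def ee (i : ℕ) : ℤ := cc (i / 571) * ca (i % 571)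

theorem cycD : ((Polynomial.cyclotomic 81653 ℤ : Polynomial ℤ) : PowerSeries ℤ)
    = mk (spread 571 ca) * mk cc := by
  have h := Polynomial.cyclotomic_expand_eq_cyclotomic_mul (p := 571) (n := 143) (by norm_num)
    (by norm_num) ℤ
  simp only [Nat.reduceMul] at h
  have h2 := congrArg (fun P : Polynomial ℤ => (P : PowerSeries ℤ)) h
  simp only [Polynomial.coe_mul] at h2
  rw [coe_expand 571 (by norm_num), cyc143] at h2
  have h3 : (fun i => (Polynomial.cyclotomic 143 ℤ).coeff i) = ca := by
    funext i; exact coeff143 i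
  rw [h3] at h2
  rw [h2, mul_assoc, ca_cc, mul_one]

theorem coeffD (m : ℕ) : (Polynomial.cyclotomic 81653 ℤ).coeff m = dn m := by
  have h := congrArg (coeff m) cycD
  rwa [Polynomial.coeff_coe, coeff_spread_mul 571 (by norm_num)] at h

theorem mk_ee : (mk ee : PowerSeries ℤ) = mk (spread 571 cc) * mk ca := by
  ext i
  rw [coeff_spread_mul 571 (by norm_num), PowerSeries.coeff_mk]
  rw [Finset.sum_eq_single (i / 571)]
  · unfold ee
    congr 2
    have := Nat.div_add_mod i 571
    omega
  · intro j hj hne
    rw [Finset.mem_range] at hj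
    rw [ca_big, mul_zero]
    have := Nat.div_add_mod i 571
    omega
  · intro h
    exfalso; apply h; rw [Finset.mem_range]; omega

theorem D_ee : ((Polynomial.cyclotomic 81653 ℤ : Polynomial ℤ) : PowerSeries ℤ) * mk ee = 1 := by
  rw [cycD, mk_ee]
  have h := spread_inv 571 (by norm_num) ca cc ca_cc
  calc (mk (spread 571 ca) * mk cc * (mk (spread 571 cc) * mk ca) : PowerSeries ℤ)
      = (mk (spread 571 ca) * mk (spread 571 cc)) * (mk ca * mk cc) := by ring
    _ = 1 := by rw [h, ca_cc, one_mul]

theorem prime_s : Nat.Prime 163307 := by norm_num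

theorem coeffQ (k : ℕ) : (Polynomial.cyclotomic (81653 * 163307) ℤ).coeff k
    = ∑ m ∈ Finset.range (k / 163307 + 1), dn m * ee (k - m * 163307) := by
  have h := Polynomial.cyclotomic_expand_eq_cyclotomic_mul (p := 163307) (n := 81653) prime_s
    (by norm_num) ℤ
  have h2 := congrArg (fun P : Polynomial ℤ => (P : PowerSeries ℤ)) h
  simp only [Polynomial.coe_mul] at h2
  rw [coe_expand 163307 (by norm_num)] at h2
  have h3 : (fun i => (Polynomial.cyclotomic 81653 ℤ).coeff i) = dn := by
    funext i; exact coeffD i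
  rw [h3] at h2
  have h4 : ((Polynomial.cyclotomic (81653 * 163307) ℤ : Polynomial ℤ) : PowerSeries ℤ)
      = mk (spread 163307 dn) * mk ee := by
    rw [h2, mul_assoc, D_ee, mul_one]
  have h5 := congrArg (coeff k) h4
  rwa [Polynomial.coeff_coe, coeff_spread_mul 163307 (by norm_num)] at h5

/-- a fast form of `dn` -/
def dl : ℕ → ℕ → ℤ
  | 0, m => ca 0 * cc (m - 0 * 571)
  | u + 1, m => dl u m + ca (u + 1) * cc (m - (u + 1) * 571)

theorem dl_eq (u m : ℕ) : dl u m = ∑ v ∈ Finset.range (u + 1), ca v * cc (m - v * 571) := by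
  induction u with
  | zero => simp [dl]
  | succ u ih => rw [Finset.sum_range_succ, ← ih]; rfl

def term (m : ℕ) : ℤ :=
  bif Nat.blt 25137 m then 0 else
  bif Nat.blt 23 (((4105048112 - m * 163307) / 571) % 143) then 0 else
  bif Nat.blt 142 ((4105048112 - m * 163307) % 571) then 0 else
  dl (m / 571) m * (cc ((4105048112 - m * 163307) / 571) * ca ((4105048112 - m * 163307) % 571))

theorem blt_iff (a b : ℕ) : Nat.blt a b = true ↔ a < b := by rw [Nat.blt_eq]

theorem term_eq (m : ℕ) (h : m < 25138) : term m = dn m * ee (4105048112 - m * 163307) := by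
  unfold term dn ee
  rw [dl_eq]
  have h1 : Nat.blt 25137 m = false := by
    rw [Bool.eq_false_iff]; intro hc
    have := (blt_iff _ _).1 hc
    omega
  rw [h1]
  simp only [cond_false]
  cases h2 : Nat.blt 23 (((4105048112 - m * 163307) / 571) % 143) with
  | true =>
    have h3 := (blt_iff _ _).1 h2
    have h4 : cc ((4105048112 - m * 163307) / 571) = 0 := by
      unfold cc
      rw [if_neg (by omega), if_neg (by omega)]
    rw [h4]; simp
  | false =>
    cases h5 : Nat.blt 142 ((4105048112 - m * 163307) % 571) with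
    | true =>
      have h6 := (blt_iff _ _).1 h5
      rw [ca_big _ (by omega)]; simp
    | false => simp

theorem term_big (m : ℕ) (h : 25138 ≤ m) : term m = 0 := by
  unfold term
  have h1 : Nat.blt 25137 m = true := (blt_iff _ _).2 (by omega)
  rw [h1]; rfl

def SS : ℕ → ℕ → ℤ
  | 0, lo => term lo
  | d + 1, lo => SS d lo + SS d (lo + 2 ^ d)

theorem SS_eq (d lo : ℕ) : SS d lo = ∑ i ∈ Finset.range (2 ^ d), term (lo + i) := by
  induction d generalizing lo with
  | zero => simp [SS]
  | succ d ih =>
    have : 2 ^ (d + 1) = 2 ^ d + 2 ^ d := by ring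
    rw [this, Finset.sum_range_add, SS, ih, ih]
    congr 1
    apply Finset.sum_congr rfl
    intro i _
    rw [add_assoc]

theorem SS_val : SS 15 0 = 5 := by decide +kernel

theorem sum_val : ∑ m ∈ Finset.range 25138, dn m * ee (4105048112 - m * 163307) = 5 := by
  have h := SS_val
  rw [SS_eq] at h
  have h2 : (2 : ℕ) ^ 15 = 25138 + 7630 := by norm_num
  rw [h2, Finset.sum_range_add] at h
  have h3 : ∑ i ∈ Finset.range 7630, term (0 + (25138 + i)) = 0 := by
    apply Finset.sum_eq_zero
    intro i _
    exact term_big _ (by omega)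
  rw [h3, add_zero] at h
  rw [← h]
  apply Finset.sum_congr rfl
  intro m hm
  rw [zero_add, term_eq m (Finset.mem_range.1 hm)]

theorem coeff_five :
    (Polynomial.cyclotomic (11 * 13 * 571 * 163307) ℤ).coeff 4105048112 = 5 := by
  have h := coeffQ 4105048112
  have h1 : (4105048112 / 163307 + 1 : ℕ) = 25138 := by norm_num
  rw [h1, sum_val] at h
  have h2 : (11 * 13 * 571 * 163307 : ℕ) = 81653 * 163307 := by norm_num
  rw [h2, h]

end Pool.Agent.X170.Quat
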